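import Pool.Agent.Nott.FP
import Pool.Agent.Nott.Topo
import Pool.Agent.Nott.DataG

/-!
# The Nottingham group over the field with two elements is finitely presented

* `J` (file `Pool/Agent/Nott/Basic.lean`) is the Nottingham group `N(F_2)`: the power series
  `X + a_2 X^2 + a_3 X^3 + ...` over `ZMod 2`, the product of `f` and `g` being `f(g(X))`.
* The topology on `J` (file `Pool/Agent/Nott/Topo.lean`) is coefficientwise convergence; the
  subgroups `{f | X^(k+1) divides f - X}` are a base of neighbourhoods of the identity
  (`J_nhds_basis`).
* `FreePro2 d` (file `Pool/Agent/Nott/FreePro.lean`) is the free pro-2 group of rank `d`, the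
  inverse limit of the finite 2-group quotients of the free group of rank `d`; its universal
  property is `FreePro2.universal`.
* `IsFPPro2 G` (file `Pool/Agent/Nott/FP.lean`): `G` is a pro-2 group isomorphic, as a
  topological group, to `FreePro2 d` modulo the closed normal subgroup generated by a finite set.
-/

namespace Pool.Agent.Results.MP_e8dfcb_al.FinitelyPresented

open Pool.Agent.Nott

/-- **The Nottingham group `N(F_2)` is finitely presented as a pro-2 group.** -/
theorem result : IsFPPro2 J := by
  refine fp_of_step J_isPro2 Fn (fun n => Fil_open n) (fun m n h => Fn_anti m n h)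
    (fun U hU h1 => Fil_basis U hU h1) 3 ![nottFacts.o 1, nottFacts.h 0, nottFacts.h 2]
    (dense_gen nottFacts (fun n _ f => Iff.rfl)) 40 ?_
  intro Γ _ π hπ N hN T hT
  obtain ⟨T', h1, h2, h3⟩ := nottFacts.step Γ π hπ N hN T hT.1 hT.2
  exact ⟨T', ⟨h1, h2⟩, h3⟩

end Pool.Agent.Results.MP_e8dfcb_al.FinitelyPresented
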